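import Pool.Agent.Y528.KL.KDefs

/-!
# The pigeonhole principle as a derived rule (job KL-PHPR)
-/

set_option autoImplicit false

namespace Pool.Agent.Y35.KL

open Pool.Agent.H555R2.PF Pool.Agent.H555R2.PF.Fm Pool.Agent.TH677.EF
open Pool.Agent.Y528.KL

variable {F : List Rule} {M : ℕ}

/-- introduction of an instance of a conjunction -/
theorem sAND (hG : Good F M) {σ : ℕ → Fm} {l : List Fm} {G : Fm} {e c : ℕ}
    (hlen : l.length + 1 ≤ M ^ c)
    (hs : (imp G ((AND l).subst σ)).size ≤ M ^ e)
    (h : ∀ A ∈ l, Pf F (imp G (A.subst σ)) (M ^ e)) :
    Pf F (imp G ((AND l).subst σ)) (M ^ (e + 3 + c)) := by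
  have key : ∀ l : List Fm, (imp G ((AND l).subst σ)).size ≤ M ^ e →
      (∀ A ∈ l, Pf F (imp G (A.subst σ)) (M ^ e)) →
      Pf F (imp G ((AND l).subst σ)) ((l.length + 1) * M ^ (e + 3)) := by
    intro l
    induction l with
    | nil =>
      intro hs _
      simp only [AND, subst, size] at hs
      have h1 := hG.taut (imp (var 0) (imp (var 1) (var 1))) (by
          intro v; simp [eval]) (by simp [size]) [G, σ 0] (e := e) (by
          intro n hn
          refine asg_size (Nat.one_le_pow _ _ (by have := hG.two; omega)) ?_ n
          intro X hX; simp at hX; rcases hX with rfl | rfl <;> omega)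
      have h2 : Pf F (imp G ((AND []).subst σ)) (M ^ (e + 1)) := by
        simpa [subst, asg, AND] using h1
      refine h2.mono ?_
      simp only [List.length_nil, zero_add, one_mul]
      exact hG.le_pow (by omega)
    | cons D l ih =>
      intro hs h
      simp only [AND, subst, size] at hs
      have h2 := ih (by simp only [size]; omega) fun A hA => h A (by simp [hA])
      have h1 := hG.r2 (imp (var 0) (var 1)) (imp (var 0) (var 2))
        (imp (var 0) (and (var 1) (var 2)))
        [G, D.subst σ, (AND l).subst σ] (by intro v; simp [eval]; tauto) (by simp [size]) (e := e)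
        (by simpa [subst, asg] using h D (by simp)) (by simpa [subst, asg] using h2) (by
          intro X hX; simp at hX; rcases hX with rfl | rfl | rfl <;> omega)
      have h3 : Pf F (imp G ((AND (D :: l)).subst σ))
          (M ^ (e + 3) + (l.length + 1) * M ^ (e + 3)) := by
        simpa [subst, asg, AND] using h1
      refine h3.mono ?_
      rw [List.length_cons]
      nlinarith
  refine (key l hs h).mono ?_
  calc (l.length + 1) * M ^ (e + 3) ≤ M ^ c * M ^ (e + 3) := Nat.mul_le_mul_right _ hlen
    _ = M ^ (e + 3 + c) := by ring

/-- a disjunction of instances implies the instance of the disjunction -/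
theorem sOR (hG : Good F M) {σ : ℕ → Fm} {l : List Fm} {e c : ℕ}
    (hlen : l.length + 1 ≤ M ^ c)
    (hs : (OR (l.map (subst σ))).size + ((OR l).subst σ).size ≤ M ^ e) :
    Pf F (imp (OR (l.map (subst σ))) ((OR l).subst σ)) (M ^ (e + 2 + c)) := by
  have key : ∀ l : List Fm, (OR (l.map (subst σ))).size + ((OR l).subst σ).size ≤ M ^ e →
      Pf F (imp (OR (l.map (subst σ))) ((OR l).subst σ)) ((l.length + 1) * M ^ (e + 2)) := by
    intro l
    induction l with
    | nil =>
      intro hs
      simp only [OR, List.map_nil, subst, size] at hs
      have h1 := hG.taut (imp (neg (imp (var 0) (var 0))) (neg (imp (var 1) (var 1)))) (by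
          intro v; simp [eval]) (by simp [size]) [var 0, σ 0] (e := e) (by
          intro n hn
          refine asg_size (Nat.one_le_pow _ _ (by have := hG.two; omega)) ?_ n
          intro X hX; simp at hX; rcases hX with rfl | rfl
          · simp only [size]; omega
          · omega)
      have h2 : Pf F (imp (OR ([].map (subst σ))) ((OR []).subst σ)) (M ^ (e + 1)) := by
        simpa [subst, asg, OR] using h1
      refine h2.mono ?_
      simp only [List.length_nil, zero_add, one_mul]
      exact hG.le_pow (by omega)
    | cons D l ih =>
      intro hs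
      simp only [OR, List.map_cons, subst, size] at hs
      have h2 := ih (by omega)
      have h1 := hG.r1 (imp (var 1) (var 2)) (imp (or (var 0) (var 1)) (or (var 0) (var 2)))
        [D.subst σ, OR (l.map (subst σ)), (OR l).subst σ]
        (by intro v; simp [eval]; tauto) (by simp [size]) (e := e)
        (by simpa [subst, asg] using h2) (by
          intro X hX; simp at hX; rcases hX with rfl | rfl | rfl <;> omega)
      have h3 : Pf F (imp (OR ((D :: l).map (subst σ))) ((OR (D :: l)).subst σ))
          (M ^ (e + 2) + (l.length + 1) * M ^ (e + 2)) := by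
        simpa [subst, asg, OR] using h1
      refine h3.mono ?_
      rw [List.length_cons]
      nlinarith
  refine (key l hs).mono ?_
  calc (l.length + 1) * M ^ (e + 2) ≤ M ^ c * M ^ (e + 2) := Nat.mul_le_mul_right _ hlen
    _ = M ^ (e + 2 + c) := by ring

theorem t_phpr (hP : T_PHP) (F : List Rule) : T_PHPR F := by
  classical
  by_cases hF : IsFrege F
  swap
  · exact ⟨0, fun _ _ _ _ _ _ _ _ hG => absurd hG.hF hF⟩
  obtain ⟨e₀, he₀⟩ := hP F hF
  refine ⟨2 * e₀ + 40, ?_⟩
  intro α β A B R M e Γ hG hA hB hBA hAM hT hI
  have hM := hG.two
  have hM1 : 1 ≤ M := by omega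
  -- the substitution
  let σ : ℕ → Fm := fun x => if h : x.unpair.1 < A.length ∧ x.unpair.2 < B.length then
    R A[x.unpair.1] B[x.unpair.2] else var 0
  have hσ : ∀ (i j : ℕ) (hi : i < A.length) (hj : j < B.length),
      σ (Nat.pair i j) = R A[i] B[j] := by
    intro i j hi hj
    have h1 : (Nat.pair i j).unpair = (i, j) := Nat.unpair_pair i j
    have h2 : (Nat.pair i j).unpair.1 < A.length ∧ (Nat.pair i j).unpair.2 < B.length := by
      rw [h1]; exact ⟨hi, hj⟩
    show (if h : (Nat.pair i j).unpair.1 < A.length ∧ (Nat.pair i j).unpair.2 < B.length then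
      R A[(Nat.pair i j).unpair.1] B[(Nat.pair i j).unpair.2] else var 0) = R A[i] B[j]
    rw [dif_pos h2]
    congr 1 <;> simp [h1]
  have hR : ∀ a ∈ A, ∀ b ∈ B, (R a b).size ≤ M := by
    intro a ha b hb
    have h1 := (hT a ha).size
    have h2 : (R a b).size + 5 ≤ (OR (B.map fun b => R a b)).size :=
      mem_OR_size (List.mem_map.2 ⟨b, hb, rfl⟩)
    omega
  have hσs : ∀ n, (σ n).size ≤ M := by
    intro n
    show (if h : n.unpair.1 < A.length ∧ n.unpair.2 < B.length then
      R A[n.unpair.1] B[n.unpair.2] else var 0).size ≤ M
    split_ifs with h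
    · exact hR _ (List.getElem_mem _) _ (List.getElem_mem _)
    · simp only [size]; omega
  set G := AND Γ with hGdef
  have hGs : G.size + 5 ≤ M := by
    have hpos : 0 < A.length := by omega
    have h1 := (hT A[0] (List.getElem_mem _)).size
    have h2 := OR_size (B.map fun b => R A[0] b)
    rw [hGdef]
    omega
  -- the pigeonhole principle
  have h0 := he₀ A.length B.length hBA
  have h0s := h0.size_le
  simp only [size] at h0s
  have hpow : (A.length + 2) ^ e₀ ≤ M ^ e₀ := Nat.pow_le_pow_left hAM _
  have hinst := h0.inst (σ := σ) hM1 hσs
  have hphp : Pf F (neg (and ((phpT A.length B.length).subst σ)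
      ((phpI A.length B.length).subst σ))) (M ^ (e₀ + 1)) := by
    refine hinst.mono ?_
    rw [pow_succ]
    exact Nat.mul_le_mul_right _ hpow
  have hps := hphp.size_le
  simp only [size] at hps
  have hpp : M ^ (e₀ + 1) * 2 ≤ M ^ (e₀ + 2) := by
    rw [pow_succ M (e₀ + 1)]
    exact Nat.mul_le_mul_left _ (by omega)
  have hMp : M ≤ M ^ (e₀ + 1) := by
    calc M = M ^ 1 := (pow_one M).symm
      _ ≤ _ := hG.le_pow (by omega)
  have hp1 : M ^ (e₀ + 2) ≤ M ^ (e + e₀ + 6) := hG.le_pow (by omega)
  -- total
  have hTot : Pf F (imp G ((phpT A.length B.length).subst σ)) (M ^ ((e + e₀ + 12) + 3 + e₀)) := by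
    unfold phpT
    refine sAND hG ?_ ?_ ?_
    · rw [List.length_map, List.length_range]
      have h1 := length_le_AND ((List.range A.length).map fun a =>
        OR ((List.range B.length).map fun b => var (Nat.pair a b)))
      rw [List.length_map, List.length_range] at h1
      unfold phpT at h0s
      omega
    · have : (imp G ((phpT A.length B.length).subst σ)).size ≤ M ^ (e₀ + 2) := by
        simp only [size]; omega
      exact this.trans (hG.le_pow (by omega))
    · intro X hX
      obtain ⟨i, hi, rfl⟩ := List.mem_map.1 hX
      rw [List.mem_range] at hi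
      have hl : ((List.range B.length).map fun b => var (Nat.pair i b)).map (subst σ) =
          B.map fun b => R A[i] b := by
        apply List.ext_getElem
        · simp
        · intro j h1 h2
          simp only [List.length_map, List.length_range] at h1
          simp only [List.getElem_map, List.getElem_range, subst]
          exact hσ i j hi h1
      have hsz : ((OR ((List.range B.length).map fun b => var (Nat.pair i b))).subst σ).size ≤
          M ^ (e₀ + 1) := by
        have h1 : ∀ (l : List Fm) (D : Fm), D ∈ l →
            (D.subst σ).size ≤ ((AND l).subst σ).size := by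
          intro l D
          induction l with
          | nil => intro h; simp at h
          | cons E l ih =>
            intro h
            simp only [AND, subst, size]
            rcases List.mem_cons.1 h with rfl | h
            · omega
            · have := ih h
              omega
        have h2 := h1 _ _ hX
        unfold phpT at hps
        omega
      have hOs : (OR (B.map fun b => R A[i] b)).size ≤ M := by
        have := (hT A[i] (List.getElem_mem _)).size
        rw [← hGdef] at this
        omega
      have h1 := sOR hG (σ := σ) (l := (List.range B.length).map fun b => var (Nat.pair i b))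
        (e := e₀ + 2) (c := 1) (by
          rw [List.length_map, List.length_range, pow_one]; omega) (by
          rw [hl]; omega)
      rw [hl] at h1
      have h2 := (hT A[i] (List.getElem_mem _)).2
      have h3 := hG.t2 (imp (var 0) (var 1)) (imp (var 1) (var 2)) (imp (var 0) (var 2))
        [G, OR (B.map fun b => R A[i] b),
          (OR ((List.range B.length).map fun b => var (Nat.pair i b))).subst σ]
        (fun v g1 g2 g3 => g2 (g1 g3)) (by simp only [Fm.size]; omega) (e := e + e₀ + 6)
        (h2.mono (hG.le_pow (by omega))) (Pf.mono h1 (hG.le_pow (by omega))) (by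
          have h5 : ((imp (var 0) (var 2)).subst (asg [G, OR (B.map fun b => R A[i] b),
            (OR ((List.range B.length).map fun b => var (Nat.pair i b))).subst σ])).size
              = G.size + ((OR ((List.range B.length).map fun b =>
                var (Nat.pair i b))).subst σ).size + 1 := rfl
          rw [h5]
          omega)
      exact Pf.mono h3 (hG.le_pow (by omega))
  -- injective
  have hInj : Pf F (imp G ((phpI A.length B.length).subst σ)) (M ^ ((e + e₀ + 12) + 3 + e₀)) := by
    refine sAND hG ?_ ?_ ?_
    · have h1 := length_le_AND ((List.range A.length).flatMap fun a =>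
        (List.range a).flatMap fun a' =>
        (List.range B.length).map fun b => neg (and (var (Nat.pair a b)) (var (Nat.pair a' b))))
      unfold phpI at h0s
      omega
    · have : (imp G ((phpI A.length B.length).subst σ)).size ≤ M ^ (e₀ + 2) := by
        simp only [size]; omega
      exact this.trans (hG.le_pow (by omega))
    · intro X hX
      obtain ⟨i, hi, hX⟩ := List.mem_flatMap.1 hX
      obtain ⟨i', hi', hX⟩ := List.mem_flatMap.1 hX
      obtain ⟨j, hj, rfl⟩ := List.mem_map.1 hX
      rw [List.mem_range] at hi hi' hj
      have hi'2 : i' < A.length := by omega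
      have hne : A[i] ≠ A[i'] := by
        intro h
        have := (hA.getElem_inj_iff).1 h
        omega
      have h1 := (hI A[i] (List.getElem_mem _) A[i'] (List.getElem_mem _) B[j]
        (List.getElem_mem _) hne).2
      have h2 : (neg (and (var (Nat.pair i j)) (var (Nat.pair i' j)))).subst σ =
          neg (and (R A[i] B[j]) (R A[i'] B[j])) := by
        simp only [subst]
        rw [hσ i j hi hj, hσ i' j hi'2 hj]
      rw [h2]
      exact h1.mono (hG.le_pow (by omega))
  -- the conclusion
  refine ⟨by simp only [size, FF_size]; omega, ?_⟩
  have h6 := hG.t3 (imp (var 0) (var 1)) (imp (var 0) (var 2)) (neg (and (var 1) (var 2)))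
    (imp (var 0) (neg (imp (var 3) (var 3))))
    [G, (phpT A.length B.length).subst σ, (phpI A.length B.length).subst σ, var 0]
    (fun v g1 g2 g3 g4 => absurd ⟨g1 g4, g2 g4⟩ g3) (by simp only [Fm.size]; omega)
    (e := (e + e₀ + 12) + 3 + e₀) hTot hInj (Pf.mono hphp (hG.le_pow (by omega))) (by
      have h5 : ((imp (var 0) (neg (imp (var 3) (var 3)))).subst (asg [G,
        (phpT A.length B.length).subst σ, (phpI A.length B.length).subst σ, var 0])).size
          = G.size + 4 + 1 := rfl
      rw [h5]
      calc G.size + 4 + 1 ≤ M := by omega
        _ = M ^ 1 := (pow_one M).symm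
        _ ≤ _ := hG.le_pow (by omega))
  exact Pf.mono h6 (hG.le_pow (by omega))

end Pool.Agent.Y35.KL
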